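import Pool.Agent.H66.ZK.Fin

/-!
# Zero-cycles of the rational points of the K3 surfaces of degree six on the cone over `ℙ¹ × ℙ¹`

`K` is a number field, `A` and `B` are forms of bidegree `(2,2)` and `(3,3)` over `K` in
`(x₀, x₁)` and `(y₀, y₁)`, and `X` is the surface

  `w³ + A(x, y) w + B(x, y) = 0`.

Its points have the coordinates `(w, x₀, x₁, y₀, y₁)`, `x ≠ 0`, `y ≠ 0`, modulo
`(l m w, l x₀, l x₁, m y₀, m y₁)`; it is a triple cover of `ℙ¹ × ℙ¹`. If `X` is smooth, it is a
K3 surface (these surfaces are the intersections of a cubic hypersurface in `ℙ⁴` with the cone over a
smooth split quadric surface, such that the cubic does not pass through the vertex); this is a family of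
dimension 18, and the general member has Picard number two and the two fibrations by the plane cubics
`y` constant and `x` constant.

We assume that `X` is smooth and that none of these plane cubics contains a line (over the algebraic
closure). This holds for the general `A`, `B`. `h` is the class of the section of one of the plane cubics
by a line of its plane. All these sections are rationally equivalent: `h` is the class of a fibre of
`X → ℙ¹ × ℙ¹`. By the conjecture of Bloch and Beilinson the class of every point `P` of `X` over a number
field is `h / 3`, up to torsion: `3 [P] - h` is a torsion class. We show: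

(1) Let us call the `K`-points `Q` of `X` for which `3 [Q] - h` is a torsion class over the algebraic
closure (in the group of zero-cycles modulo the relations of the plane cubics) central. The differences of
the classes of the central points are torsion.

(2) The `K`-points on the singular members of the two fibrations and the flexes of the plane cubics are
central.

(3) If `P` is central, then the `K`-points `Q` with `[Q] = (3 m + 1) [P] - m h`, `m ∈ ℤ`, are central.

(4) There is a finite set `T` such that for all `K`-points `P` of `X` which are not in `T` and not on the
ramification curve of `X → ℙ¹ × ℙ¹`, the `K`-points `Q` whose class is of the form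
`(3 m + 1) [P] - m h`, `m ∈ ℤ`, are dense near `P` in the product of the sets `X(ℚ_p)`, for all finite sets
of embeddings of `K` in fields `ℚ_p` for different primes `p`, with or without a real embedding of `K`.
So the rational points near `P` can be approximated (simultaneously at the real place and the `p`-adic
places) by rational points whose classes lie in the group generated by `[P]` and `h`. If `P` is central,
the central points are dense near `P`: arbitrary local points near `P` can be approximated by rational
points which satisfy the conjecture.

Idea of the proof. For a `K`-point `P` on a smooth plane cubic `C` let `T` be the third point of the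
tangent, `[P] - [T] = 3 [P] - h` on `C`. If it has infinite order, then the points with the class
`[P] + m (3 [P] - h)` are dense near `P` in the product of the sets of the `p`-adic points of `C`, with
the uniformity that is needed to move the curve (the library project ZC). `P` is a flex or torsion for only
finitely many points which are torsion for both fibrations (project TK: the estimates for the torsion
points of Weierstrass curves and the product formula). So the `K`-points move in one direction, and then,
from all but finitely many points of the curve, in the other one. On the singular members the relations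
of the plane cubic over the algebraic closure show that `3 [Q] = h`.

Project ZK: helper66, with helper26 (discriminants), helper27 (generic smoothness), helper28 and
helper29 (lines through `T` and `P`), helper37 (from the affine surface to the projective one),
helper44 (the classes of the multiples), helper50 (the lines from `P` to the points close to `P`), helper97
(singular cubics). The proof uses the library modules of the projects ZC and TT (helper35 and others), and
of the project TK.
-/

set_option autoImplicit false

open MvPolynomial Pool.Agent.H66.ZK

namespace Pool.Agent.Results.MP_9207e0_ag.TrigonalClassesDense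

theorem DenseNear.mono {K : Type} [Field K] {f : MvPolynomial (Fin 5) K} {R R' : Set (Fin 5 → K)}
    {P : Fin 5 → K} (h : DenseNear f R P) (hR : R ⊆ R') : DenseNear f R' P := by
  intro ι _ _ p _ hinj σ
  obtain ⟨h1, h2⟩ := h ι p hinj σ
  refine ⟨?_, fun τ => ?_⟩
  · obtain ⟨U, hU, h3⟩ := h1
    refine ⟨U, hU, fun S hS h4 => closure_mono ?_ (h3 S hS h4)⟩
    rintro S ⟨Q, hQ, h5⟩
    exact ⟨Q, hR hQ, h5⟩
  · obtain ⟨U, hU, h3⟩ := h2 τ
    refine ⟨U, hU, fun S hS h4 h5 => closure_mono ?_ (h3 S hS h4 h5)⟩
    rintro S ⟨Q, hQ, h6⟩
    exact ⟨Q, hR hQ, h6⟩

/-- **Zero-cycles of the rational points of the K3 surfaces `w³ + A(x, y) w + B(x, y) = 0`.** -/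
theorem result (K : Type) [Field K] [NumberField K] (a : Fin 3 → Fin 3 → K) (b : Fin 4 → Fin 4 → K)
    (h : Admissible a b) :
    -- (1) the central points are equivalent
    (∀ Q ∈ Central (F a b), ∀ Q' ∈ Central (F a b), Equivalent (F a b) Q Q') ∧
    -- (2) the points of the singular plane cubics, and the flexes, are central
    (∀ Q : Fin 5 → K, IsPoint Q → eval Q (F a b) = 0 →
      ((∃ p, Singular₁ (F a b) p ∧ p 3 = bar Q 3 ∧ p 4 = bar Q 4) ∨
        (∃ p, Singular₂ (F a b) p ∧ p 1 = bar Q 1 ∧ p 2 = bar Q 2) ∨
        LineSection (F a b) (3 • pt Q)) → Q ∈ Central (F a b)) ∧
    -- (3) the points with `[Q] = (3 m + 1) [P] - m h` are central if `P` is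
    (∀ P ∈ Central (F a b), Multiples (F a b) P ⊆ Central (F a b)) ∧
    -- (4) density near all but finitely many `K`-points off the ramification curve
    ∃ T : Set (Fin 5 → K), T.Finite ∧ ∀ P : Fin 5 → K, IsPoint P → eval P (F a b) = 0 →
      eval P (pderiv 0 (F a b)) ≠ 0 → (∀ q ∈ T, ∀ l m : K, P ≠ scale l m q) →
      DenseNear (F a b) (Multiples (F a b) P) P ∧
        (P ∈ Central (F a b) → DenseNear (F a b) (Central (F a b)) P) := by
  have hg := good h
  obtain ⟨T, hT, hN⟩ := near K a b hg
  refine ⟨fun Q hQ Q' hQ' => equiv_of_central hQ hQ', ?_, fun P hP Q hQ => central_mul hP hQ,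
    T, hT, fun P h1 h2 h3 h4 => ?_⟩
  · rintro Q hQ1 hQ2 (⟨p, h1, h2, h3⟩ | ⟨p, h1, h2, h3⟩ | h1)
    · exact central_sing₁ Pool.Agent.H97.ZK.nod hg hQ1 hQ2 h1 h2 h3
    · exact central_sing₂ Pool.Agent.H97.ZK.nod hg hQ1 hQ2 h1 h2 h3
    · exact central_flex hQ1 hQ2 h1
  · have h5 := hN P h1 h2 h3 h4
    exact ⟨h5, fun hP => DenseNear.mono h5 fun Q hQ => central_mul hP hQ⟩

end Pool.Agent.Results.MP_9207e0_ag.TrigonalClassesDense
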